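import Pool.Agent.Helper32_NJ.Stmts

set_option autoImplicit false

/-!
# Squad NJ, module BAD: at most three bad places, in polynomial form
-/

namespace Pool.Agent.NJ.H75

open Pool.Agent.NJ Polynomial

noncomputable section

/-- The map `ℚ[X] → ℂ(X)`. -/
def gq : ℚ[X] →+* RatFunc ℂ :=
  (algebraMap ℂ[X] (RatFunc ℂ)).comp (mapRingHom (algebraMap ℚ ℂ))

lemma gq_inj : Function.Injective gq := by
  unfold gq
  rw [RingHom.coe_comp]
  apply Function.Injective.comp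
  · exact IsFractionRing.injective ℂ[X] (RatFunc ℂ)
  · exact Polynomial.map_injective _ (algebraMap ℚ ℂ).injective

/-- The extension of constants `ℚ(X) → ℂ(X)`. -/
def phi : RatFunc ℚ →+* RatFunc ℂ := IsFractionRing.lift gq_inj

lemma phi_alg (p : ℚ[X]) : phi (algebraMap ℚ[X] (RatFunc ℚ) p) =
    algebraMap ℂ[X] (RatFunc ℂ) (p.map (algebraMap ℚ ℂ)) :=
  IsFractionRing.lift_algebraMap gq_inj p

lemma genC_eq (E : WeierstrassCurve ℚ[X]) : genC E = (gen E).map phi := by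
  unfold genC gen
  rw [WeierstrassCurve.map_map]
  have h : (algebraMap ℂ[X] (RatFunc ℂ)).comp (mapRingHom (algebraMap ℚ ℂ)) =
      phi.comp (algebraMap ℚ[X] (RatFunc ℚ)) := by
    apply RingHom.ext
    intro p
    exact (phi_alg p).symm
  rw [h]

lemma roots_map {E : WeierstrassCurve ℚ[X]} {e₁ e₂ e₃ : RatFunc ℚ}
    (h : Roots (gen E) e₁ e₂ e₃) : Roots (genC E) (phi e₁) (phi e₂) (phi e₃) := by
  obtain ⟨h1, h2, h3⟩ := h
  rw [genC_eq]
  refine ⟨?_, ?_, ?_⟩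
  · rw [WeierstrassCurve.map_b₂, h1]
    simp only [map_mul, map_add, map_neg, map_ofNat]
  · rw [WeierstrassCurve.map_b₄, h2]
    simp only [map_mul, map_add, map_ofNat]
  · rw [WeierstrassCurve.map_b₆, h3]
    simp only [map_mul, map_neg, map_ofNat]

/-- An order function attached to a valuation ring. -/
structure Ord (A : ValuationSubring (RatFunc ℂ)) (v : RatFunc ℂ → ℤ) (n : ℂ[X] → ℤ) : Prop where
  hC : ∀ c : ℂ, RatFunc.C c ∈ A
  mul : ∀ f g : RatFunc ℂ, f ≠ 0 → g ≠ 0 → v (f * g) = v f + v g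
  mem : ∀ f : RatFunc ℂ, f ≠ 0 → (f ∈ A ↔ 0 ≤ v f)
  pol : ∀ p : ℂ[X], p ≠ 0 → v (algebraMap ℂ[X] (RatFunc ℂ) p) = n p

lemma Ord.one {A v n} (h : Ord A v n) : v 1 = 0 := by
  have := h.mul 1 1 one_ne_zero one_ne_zero
  rw [mul_one] at this
  omega

lemma Ord.inv {A v n} (h : Ord A v n) {f : RatFunc ℂ} (hf : f ≠ 0) : v f⁻¹ = - v f := by
  have := h.mul f f⁻¹ hf (inv_ne_zero hf)
  rw [mul_inv_cancel₀ hf, h.one] at this
  omega

lemma Ord.sq {A v n} (h : Ord A v n) {f : RatFunc ℂ} (hf : f ≠ 0) : v (f ^ 2) = 2 * v f := by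
  rw [pow_two, h.mul f f hf hf]
  ring

/-- A unit times a square has even order. -/
lemma Ord.unit {A v n} (h : Ord A v n) {a w : RatFunc ℂ} (ha : a ≠ 0) (hw : w ≠ 0)
    (h1 : a / w ^ 2 ∈ A) (h2 : (a / w ^ 2)⁻¹ ∈ A) : v a = 2 * v w := by
  have hw2 : w ^ 2 ≠ 0 := pow_ne_zero 2 hw
  have hq : a / w ^ 2 ≠ 0 := div_ne_zero ha hw2
  have e1 := (h.mem _ hq).mp h1
  have e2 := (h.mem _ (inv_ne_zero hq)).mp h2
  rw [h.inv hq] at e2
  have e3 : v (a / w ^ 2) = 0 := by omega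
  have e4 := h.mul (a / w ^ 2) (w ^ 2) hq hw2
  rw [div_mul_cancel₀ a hw2, e3, h.sq hw] at e4
  omega

lemma alg_ne {p : ℂ[X]} (hp : p ≠ 0) : algebraMap ℂ[X] (RatFunc ℂ) p ≠ 0 := by
  intro h
  apply hp
  apply IsFractionRing.injective ℂ[X] (RatFunc ℂ)
  rw [h, map_zero]

lemma map_ne {p : ℚ[X]} (hp : p ≠ 0) : p.map (algebraMap ℚ ℂ) ≠ 0 := by
  intro h
  apply hp
  apply Polynomial.map_injective _ (algebraMap ℚ ℂ).injective
  rw [h, Polynomial.map_zero]

/-- One difference. -/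
lemma one_dif {A v n} (h : Ord A v n) {a u w : RatFunc ℂ} {d x : ℚ[X]} (ha : a ≠ 0) (hw : w ≠ 0)
    (hu : u ≠ 0) (hd : d ≠ 0) (hx : x ≠ 0) (h1 : a / w ^ 2 ∈ A) (h2 : (a / w ^ 2)⁻¹ ∈ A)
    (he : a = u ^ 2 * algebraMap ℂ[X] (RatFunc ℂ) ((d * x).map (algebraMap ℚ ℂ))) :
    n (d.map (algebraMap ℚ ℂ)) + n (x.map (algebraMap ℚ ℂ)) = 2 * (v w - v u) := by
  have e1 := h.unit ha hw h1 h2
  have hd' := map_ne hd
  have hx' := map_ne hx
  rw [he, Polynomial.map_mul, map_mul,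
    h.mul _ _ (pow_ne_zero 2 hu) (mul_ne_zero (alg_ne hd') (alg_ne hx')), h.sq hu,
    h.mul _ _ (alg_ne hd') (alg_ne hx'), h.pol _ hd', h.pol _ hx'] at e1
  omega

/-- The orders at a good place. -/
lemma key (hGDR : GDRStmt) {A v n} (h : Ord A v n) {E : WeierstrassCurve ℚ[X]}
    (hg : GoodAt (genC E) A) {e₁ e₂ e₃ u : RatFunc ℚ} {δ x y z : ℚ[X]}
    (hR : Roots (gen E) e₁ e₂ e₃) (hD : Dif e₁ e₂ e₃ u δ x y z) :
    ∃ k : ℤ, n (δ.map (algebraMap ℚ ℂ)) + n (x.map (algebraMap ℚ ℂ)) = 2 * k ∧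
      n (δ.map (algebraMap ℚ ℂ)) + n (y.map (algebraMap ℚ ℂ)) = 2 * k ∧
      n (δ.map (algebraMap ℚ ℂ)) + n (z.map (algebraMap ℚ ℂ)) = 2 * k := by
  obtain ⟨w, hw, a1, a2, b1, b2, c1, c2, na, nb, nc⟩ :=
    hGDR (genC E) A _ _ _ h.hC (roots_map hR) hg
  have hu : phi u ≠ 0 := by
    rw [Ne, map_eq_zero]
    exact hD.u0
  have ea : phi e₁ - phi e₂ = (phi u) ^ 2 *
      algebraMap ℂ[X] (RatFunc ℂ) ((δ * x).map (algebraMap ℚ ℂ)) := by
    rw [← map_sub, hD.h12, map_mul, map_pow, phi_alg]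
  have eb : phi e₂ - phi e₃ = (phi u) ^ 2 *
      algebraMap ℂ[X] (RatFunc ℂ) ((δ * y).map (algebraMap ℚ ℂ)) := by
    rw [← map_sub, hD.h23, map_mul, map_pow, phi_alg]
  have ec : phi e₃ - phi e₁ = (phi u) ^ 2 *
      algebraMap ℂ[X] (RatFunc ℂ) ((δ * z).map (algebraMap ℚ ℂ)) := by
    rw [← map_sub, hD.h31, map_mul, map_pow, phi_alg]
  exact ⟨v w - v (phi u), one_dif h na hw hu hD.d0 hD.x0 a1 a2 ea,
    one_dif h nb hw hu hD.d0 hD.y0 b1 b2 eb, one_dif h nc hw hu hD.d0 hD.z0 c1 c2 ec⟩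

/-- BAD -/
theorem bad (hGDR : GDRStmt) (hPLC : PLCStmt) : BADStmt := by
  classical
  intro E _ hb e₁ e₂ e₃ u δ x y z hR hD F hF
  obtain ⟨hfin, Ai, vi, hAi, mi, memi, pi⟩ := hPLC
  choose A v hA hm hmem hp using hfin
  have oi : Ord Ai vi (fun p => -(p.natDegree : ℤ)) := ⟨hAi.1, mi, memi, pi⟩
  have ot : ∀ t, Ord (A t) (v t) (fun p => (p.rootMultiplicity t : ℤ)) :=
    fun t => ⟨(hA t).1, hm t, hmem t, hp t⟩
  have hinj : Function.Injective A := by
    intro t t' htt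
    by_contra hne
    have h0 : (X - C t : ℂ[X]) ≠ 0 := X_sub_C_ne_zero t
    have h1 : (algebraMap ℂ[X] (RatFunc ℂ) (X - C t))⁻¹ ∈ A t' := by
      rw [(ot t').mem _ (inv_ne_zero (alg_ne h0)), (ot t').inv (alg_ne h0), (ot t').pol _ h0]
      simp only [rootMultiplicity_X_sub_C]
      rw [if_neg (fun h => hne h.symm)]
      norm_num
    rw [← htt] at h1
    rw [(ot t).mem _ (inv_ne_zero (alg_ne h0)), (ot t).inv (alg_ne h0), (ot t).pol _ h0] at h1
    simp only [rootMultiplicity_X_sub_C] at h1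
    norm_num at h1
  have hni : ∀ t, A t ≠ Ai := by
    intro t htt
    have h0 : (X - C t : ℂ[X]) ≠ 0 := X_sub_C_ne_zero t
    have h1 : algebraMap ℂ[X] (RatFunc ℂ) (X - C t) ∈ A t := by
      rw [(ot t).mem _ (alg_ne h0), (ot t).pol _ h0]
      positivity
    rw [htt, oi.mem _ (alg_ne h0), oi.pol _ h0] at h1
    simp only [natDegree_X_sub_C] at h1
    norm_num at h1
  have hbt : ∀ t ∈ F, A t ∈ badPlaces E := by
    intro t ht
    refine ⟨hA t, ?_⟩
    intro hg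
    obtain ⟨k, k1, k2, k3⟩ := key hGDR (ot t) hg hR hD
    -- coprimality
    have hc : ¬ ((x.map (algebraMap ℚ ℂ)).IsRoot t ∧ (y.map (algebraMap ℚ ℂ)).IsRoot t) := by
      rintro ⟨r1, r2⟩
      have hcop := hD.cop.map (mapRingHom (algebraMap ℚ ℂ))
      obtain ⟨a, b, hab⟩ := hcop
      have := congrArg (eval t) hab
      simp only [coe_mapRingHom, eval_add, eval_mul, eval_one] at this
      rw [IsRoot.def] at r1 r2
      rw [r1, r2] at this
      norm_num at this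
    have hx0 : (x.map (algebraMap ℚ ℂ)).rootMultiplicity t = 0 := by
      by_contra hne
      have px : 0 < (x.map (algebraMap ℚ ℂ)).rootMultiplicity t := Nat.pos_of_ne_zero hne
      have py : 0 < (y.map (algebraMap ℚ ℂ)).rootMultiplicity t := by omega
      exact hc ⟨(rootMultiplicity_pos (map_ne hD.x0)).mp px,
        (rootMultiplicity_pos (map_ne hD.y0)).mp py⟩
    have hy0 : (y.map (algebraMap ℚ ℂ)).rootMultiplicity t = 0 := by omega
    have hz0 : (z.map (algebraMap ℚ ℂ)).rootMultiplicity t = 0 := by omega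
    have hev : Even ((δ.map (algebraMap ℚ ℂ)).rootMultiplicity t) := by
      rw [hx0] at k1
      refine ⟨k.toNat, ?_⟩
      omega
    rcases hF t ht with h | h
    · rw [map_mul, map_mul] at h
      have nr : ∀ {q : ℚ[X]}, q ≠ 0 → (q.map (algebraMap ℚ ℂ)).rootMultiplicity t = 0 →
          aeval t q ≠ 0 := by
        intro q hq hq0 hh
        have : (q.map (algebraMap ℚ ℂ)).IsRoot t := by
          rw [IsRoot.def, eval_map_algebraMap]
          exact hh
        have := (rootMultiplicity_pos (map_ne hq)).mpr this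
        omega
      exact mul_ne_zero (mul_ne_zero (nr hD.x0 hx0) (nr hD.y0 hy0)) (nr hD.z0 hz0) h
    · exact (Nat.not_odd_iff_even.mpr hev) h
  have hsub : A '' (F : Set ℂ) ⊆ badPlaces E := by
    rintro _ ⟨t, ht, rfl⟩
    exact hbt t ht
  have hcard : (A '' (F : Set ℂ)).encard = F.card := by
    rw [hinj.encard_image, Set.encard_coe_eq_coe_finsetCard]
  refine ⟨?_, ?_⟩
  · have := (Set.encard_le_encard hsub).trans hb
    rw [hcard] at this
    exact_mod_cast this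
  · intro hnot
    have hbi : Ai ∈ badPlaces E := by
      refine ⟨hAi, ?_⟩
      intro hg
      obtain ⟨k, k1, k2, k3⟩ := key hGDR oi hg hR hD
      simp only [natDegree_map] at k1 k2 k3
      apply hnot
      refine ⟨by omega, by omega, (-k).toNat, by omega⟩
    have hn : Ai ∉ A '' (F : Set ℂ) := by
      rintro ⟨t, _, ht⟩
      exact hni t ht
    have hsub' : insert Ai (A '' (F : Set ℂ)) ⊆ badPlaces E := Set.insert_subset hbi hsub
    have := (Set.encard_le_encard hsub').trans hb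
    rw [Set.encard_insert_of_notMem hn, hcard] at this
    have h3 : F.card + 1 ≤ 3 := by exact_mod_cast this
    omega

end

end Pool.Agent.NJ.H75
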