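import Pool.Agent.Helper32_NJ.Stmts

set_option autoImplicit false

/-!
# Squad NJ, module DLA: core of the descent for the recipe K1
-/

namespace Pool.Agent.NJ.H75

open Pool.Agent.NJ

/-- The Legendre symbol depends only on the residue class. -/
lemma leg_congr (p : ℕ) [Fact p.Prime] {a b : ℤ} (h : (p : ℤ) ∣ a - b) :
    legendreSym p a = legendreSym p b := by
  have e : (a : ZMod p) = (b : ZMod p) := by
    rw [← sub_eq_zero, ← Int.cast_sub]
    exact (ZMod.intCast_zmod_eq_zero_iff_dvd _ _).mpr h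
  unfold legendreSym
  rw [e]

lemma leg_ne {p : ℕ} [Fact p.Prime] {a : ℤ} (h : ¬ (p : ℤ) ∣ a) : legendreSym p a ≠ 0 := by
  intro h0
  apply h
  rw [legendreSym.eq_zero_iff] at h0
  exact (ZMod.intCast_zmod_eq_zero_iff_dvd _ _).mp h0

lemma leg_sq {p : ℕ} [Fact p.Prime] {a : ℤ} (h : ¬ (p : ℤ) ∣ a) :
    legendreSym p a * legendreSym p a = 1 := by
  have h1 : (a : ZMod p) ≠ 0 := by
    intro h0
    exact h ((ZMod.intCast_zmod_eq_zero_iff_dvd _ _).mp h0)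
  have := legendreSym.sq_one p h1
  rw [pow_two] at this
  exact this

lemma leg_neg_one_of_three {p : ℕ} [Fact p.Prime] (h : p % 8 = 3) : legendreSym p (-1) = -1 := by
  have hp : p ≠ 2 := by rintro rfl; omega
  rw [legendreSym.at_neg_one hp]
  exact ZMod.χ₄_nat_three_mod_four (by omega)

lemma leg_neg_one_of_five {p : ℕ} [Fact p.Prime] (h : p % 8 = 5) : legendreSym p (-1) = 1 := by
  have hp : p ≠ 2 := by rintro rfl; omega
  rw [legendreSym.at_neg_one hp]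
  exact ZMod.χ₄_nat_one_mod_four (by omega)

lemma leg_two {p : ℕ} [Fact p.Prime] (h : p % 8 = 3 ∨ p % 8 = 5) : legendreSym p 2 = -1 := by
  have hp : p ≠ 2 := by rintro rfl; omega
  rw [legendreSym.at_two hp, ZMod.χ₈_nat_eq_if_mod_eight]
  rw [if_neg (by omega), if_neg (by omega)]

lemma list2 {d a b P ε : ℤ} (ha : a % 8 = 3) (hb : b % 8 = 5) (hP : P % 8 = 7)
    (hε : ε = 1 ∨ ε = -1)
    (hd : d = ε ∨ d = ε * 2 ∨ d = ε * a ∨ d = ε * (2 * a) ∨ d = ε * b ∨ d = ε * (2 * b) ∨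
      d = ε * P ∨ d = ε * (2 * P))
    (tw : d % 8 = 1 ∨ d % 8 = 7 ∨ d % 16 = 2 ∨ d % 16 = 14) :
    d = 1 ∨ d = -1 ∨ d = 2 ∨ d = -1 * 2 ∨ d = P ∨ d = -1 * P ∨ d = 2 * P ∨ d = -1 * (2 * P) := by
  rcases hε with rfl | rfl <;> rcases hd with hd | hd | hd | hd | hd | hd | hd | hd <;> omega

lemma list1 {d a b P ε : ℤ} (ha : a % 8 = 3) (hb : b % 8 = 5) (hP : P % 8 = 7)
    (ha0 : 0 < a) (hb0 : 0 < b) (hP0 : 0 < P) (hd0 : 0 < d)
    (hε : ε = 1 ∨ ε = -1)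
    (hd : d = ε ∨ d = ε * 2 ∨ d = ε * a ∨ d = ε * (2 * a) ∨ d = ε * b ∨ d = ε * (2 * b) ∨
      d = ε * P ∨ d = ε * (2 * P))
    (tw : d % 8 = 1 ∨ d % 16 = 2) : d = 1 ∨ d = 2 := by
  rcases hε with rfl | rfl <;> rcases hd with hd | hd | hd | hd | hd | hd | hd | hd <;> omega

/-- core of the descent for `K₁` -/
theorem dla (hSUP : SUPStmt) (hST0 : ST0Stmt) (hST2 : ST2Stmt) (hST3 : ST3Stmt) (hST5 : ST5Stmt)
    (hST6 : ST6Stmt) (hTW2 : TW2Stmt) (hREA : REAStmt) (hSQF : SQFStmt) : DLAStmt := by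
  intro p1 p2 p3 hR d1 d2 hC hn1 hn2
  obtain ⟨r, s, w, A, B, hP⟩ := hC
  obtain ⟨q1, q2, q3, m1, m3, h2, hne⟩ := hR
  have : Fact p1.Prime := ⟨q1⟩
  have : Fact p2.Prime := ⟨q2⟩
  have : Fact p3.Prime := ⟨q3⟩
  have m2 : p2 % 8 = 3 := by omega
  have n12 : p1 ≠ p2 := by have := q3.pos; omega
  have n32 : p3 ≠ p2 := by have := q1.pos; omega
  have t1 : p1 ≠ 2 := by omega
  have t2 : p2 ≠ 2 := by omega
  have t3 : p3 ≠ 2 := by omega
  -- divisibility facts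
  have prI1 : Prime (p1 : ℤ) := Nat.prime_iff_prime_int.mp q1
  have prI2 : Prime (p2 : ℤ) := Nat.prime_iff_prime_int.mp q2
  have prI3 : Prime (p3 : ℤ) := Nat.prime_iff_prime_int.mp q3
  have dv : ∀ {a b : ℕ}, a.Prime → b.Prime → ((a : ℤ) ∣ (b : ℤ)) → a = b := by
    intro a b ha hb hab
    exact (Nat.prime_dvd_prime_iff_eq ha hb).mp (Int.natCast_dvd_natCast.mp hab)
  have dv2 : ∀ {a : ℕ}, a.Prime → ((a : ℤ) ∣ 2) → a = 2 := by
    intro a ha hab
    exact dv ha Nat.prime_two (by exact_mod_cast hab)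
  have hprod : ∀ {p : ℕ}, p.Prime → (p : ℤ) ∣ 4 * (p1 : ℤ) ^ 2 * p2 * p3 →
      p = 2 ∨ p = p1 ∨ p = p2 ∨ p = p3 := by
    intro p hp h
    have hpI : Prime (p : ℤ) := Nat.prime_iff_prime_int.mp hp
    rcases hpI.dvd_or_dvd h with h | h
    · rcases hpI.dvd_or_dvd h with h | h
      · rcases hpI.dvd_or_dvd h with h | h
        · left
          apply dv2 hp
          have : (4 : ℤ) = 2 * 2 := by norm_num
          rw [this] at h
          rcases hpI.dvd_or_dvd h with h | h <;> exact h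
        · exact Or.inr (Or.inl (dv hp q1 (hpI.dvd_of_dvd_pow h)))
      · exact Or.inr (Or.inr (Or.inl (dv hp q2 h)))
    · exact Or.inr (Or.inr (Or.inr (dv hp q3 h)))
  have hprod3 : ∀ {p : ℕ}, p.Prime → (p : ℤ) ∣ -2 * (p1 : ℤ) * p2 * p3 ^ 2 →
      p = 2 ∨ p = p1 ∨ p = p2 ∨ p = p3 := by
    intro p hp h
    apply hprod hp
    have hpI : Prime (p : ℤ) := Nat.prime_iff_prime_int.mp hp
    rcases hpI.dvd_or_dvd h with h | h
    · obtain ⟨c, hc⟩ := h
      exact ⟨c * (-2) * p1 * p3, by linear_combination (-2 * (p1 : ℤ) * p3) * hc⟩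
    · exact dvd_mul_of_dvd_right (hpI.dvd_of_dvd_pow h) _
  have hdiff : 4 * (p1 : ℤ) ^ 2 * p2 * p3 - -2 * (p1 : ℤ) * p2 * p3 ^ 2
      = (p2 : ℤ) ^ 2 * (2 * p1 * p3) := by
    have : (p2 : ℤ) = 2 * p1 + p3 := by exact_mod_cast h2
    rw [this]; ring
  have hprodd : ∀ {p : ℕ}, p.Prime →
      (p : ℤ) ∣ 4 * (p1 : ℤ) ^ 2 * p2 * p3 - -2 * (p1 : ℤ) * p2 * p3 ^ 2 →
      p = 2 ∨ p = p1 ∨ p = p2 ∨ p = p3 := by
    intro p hp h
    rw [hdiff] at h
    have hpI : Prime (p : ℤ) := Nat.prime_iff_prime_int.mp hp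
    rcases hpI.dvd_or_dvd h with h | h
    · exact Or.inr (Or.inr (Or.inl (dv hp q2 (hpI.dvd_of_dvd_pow h))))
    · rcases hpI.dvd_or_dvd h with h | h
      · rcases hpI.dvd_or_dvd h with h | h
        · exact Or.inl (dv2 hp h)
        · exact Or.inr (Or.inl (dv hp q1 h))
      · exact Or.inr (Or.inr (Or.inr (dv hp q3 h)))
  -- shapes
  have sup2 : ∀ p : ℕ, p.Prime → (p : ℤ) ∣ d2 → p = 2 ∨ p = p2 ∨ p = p3 := by
    intro p hp h
    have h' : p = 2 ∨ p = p1 ∨ p = p2 ∨ p = p3 := by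
      rcases (hSUP _ _ _ _ _ _ _ _ _ hP p hp).2.1 h with h' | h'
      · exact hprod hp h'
      · exact hprodd hp h'
    rcases h' with h' | h' | h' | h'
    · exact Or.inl h'
    · subst h'; exact absurd h hn2
    · exact Or.inr (Or.inl h')
    · exact Or.inr (Or.inr h')
  have sup1 : ∀ p : ℕ, p.Prime → (p : ℤ) ∣ d1 → p = 2 ∨ p = p2 ∨ p = p3 := by
    intro p hp h
    have h' : p = 2 ∨ p = p1 ∨ p = p2 ∨ p = p3 := by
      rcases (hSUP _ _ _ _ _ _ _ _ _ hP p hp).1 h with h' | h'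
      · exact hprod hp h'
      · exact hprod3 hp h'
    rcases h' with h' | h' | h' | h'
    · exact Or.inl h'
    · subst h'; exact absurd h hn1
    · exact Or.inr (Or.inl h')
    · exact Or.inr (Or.inr h')
  have sh1 := (hSQF d1 p2 p3 hP.sq1 q2 q3 t2 t3 n32.symm).2 sup1
  have sh2 := (hSQF d2 p2 p3 hP.sq2 q2 q3 t2 t3 n32.symm).2 sup2
  -- residues
  have c1 : (p1 : ℤ) % 8 = 3 := by omega
  have c2 : (p2 : ℤ) % 8 = 3 := by omega
  have c3 : (p3 : ℤ) % 8 = 5 := by omega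
  have c23 : ((p2 : ℤ) * p3) % 8 = 7 := by rw [Int.mul_emod, c2, c3]; norm_num
  have hA : 4 * (p1 : ℤ) ^ 2 * p2 * p3 % 32 = 28 := by
    have : ((p1 : ℤ) ^ 2 * p2 * p3) % 8 = 7 := by
      have e : (p1 : ℤ) ^ 2 * p2 * p3 = (p1 * p1) * ((p2 : ℤ) * p3) := by ring
      have e1 : ((p1 : ℤ) * p1) % 8 = 1 := by rw [Int.mul_emod, c1]; norm_num
      rw [e, Int.mul_emod, e1, c23]; norm_num
    have e : 4 * (p1 : ℤ) ^ 2 * p2 * p3 = 4 * ((p1 : ℤ) ^ 2 * p2 * p3) := by ring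
    rw [e]; omega
  have hB : -2 * (p1 : ℤ) * p2 * p3 ^ 2 % 16 = 14 := by
    have : ((p1 : ℤ) * p2 * p3 ^ 2) % 8 = 1 := by
      have e : (p1 : ℤ) * p2 * p3 ^ 2 = (p1 * p2) * ((p3 : ℤ) * p3) := by ring
      have e1 : ((p1 : ℤ) * p2) % 8 = 1 := by rw [Int.mul_emod, c1, c2]; norm_num
      have e2 : ((p3 : ℤ) * p3) % 8 = 1 := by rw [Int.mul_emod, c3]; norm_num
      rw [e, Int.mul_emod, e1, e2]; norm_num
    have e : -2 * (p1 : ℤ) * p2 * p3 ^ 2 = -2 * ((p1 : ℤ) * p2 * p3 ^ 2) := by ring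
    rw [e]; omega
  have tw := hTW2 _ _ _ _ _ _ _ _ _ hP hA hB
  -- divisibility at the primes
  have a12 : ¬ (p1 : ℤ) ∣ p2 := fun h => n12 (dv q1 q2 h)
  have a13 : ¬ (p1 : ℤ) ∣ p3 := fun h => hne (dv q1 q3 h)
  have a1t : ¬ (p1 : ℤ) ∣ 2 := fun h => t1 (dv2 q1 h)
  have a21 : ¬ (p2 : ℤ) ∣ p1 := fun h => n12 (dv q2 q1 h).symm
  have a23 : ¬ (p2 : ℤ) ∣ p3 := fun h => n32 (dv q2 q3 h).symm
  have a2t : ¬ (p2 : ℤ) ∣ 2 := fun h => t2 (dv2 q2 h)
  have a31 : ¬ (p3 : ℤ) ∣ p1 := fun h => hne (dv q3 q1 h).symm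
  have a32 : ¬ (p3 : ℤ) ∣ p2 := fun h => n32 (dv q3 q2 h)
  have a3t : ¬ (p3 : ℤ) ∣ 2 := fun h => t3 (dv2 q3 h)
  have ndm : ∀ {p a b : ℤ}, Prime p → ¬ p ∣ a → ¬ p ∣ b → ¬ p ∣ a * b := by
    intro p a b hp ha hb h
    rcases hp.dvd_or_dvd h with h | h
    · exact ha h
    · exact hb h
  -- ST0 at p1
  have st0 := hST0 _ _ _ _ _ _ _ _ _ hP p1 t1 ⟨4 * (p1 : ℤ) * p2 * p3, by ring⟩
    ⟨-2 * (p2 : ℤ) * p3 ^ 2, by ring⟩ (Or.inr (by
      intro h
      obtain ⟨c, hc⟩ := h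
      have h1 : (p1 : ℤ) ∣ 2 * (p2 * (p3 * p3)) := by
        refine ⟨-c, ?_⟩
        have h0 : (p1 : ℤ) ≠ 0 := prI1.ne_zero
        apply mul_left_cancel₀ h0
        linear_combination -hc
      exact ndm prI1 a1t (ndm prI1 a12 (ndm prI1 a13 a13)) h1)) hn1 hn2
  have l1m : legendreSym p1 (-1) = -1 := leg_neg_one_of_three m1
  have l1t : legendreSym p1 2 = -1 := leg_two (Or.inl m1)
  have l3m : legendreSym p3 (-1) = 1 := leg_neg_one_of_five m3
  have l3t : legendreSym p3 2 = -1 := leg_two (Or.inr m3)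
  have l2m : legendreSym p2 (-1) = -1 := leg_neg_one_of_three m2
  have l1p : legendreSym p1 ((p2 : ℤ) * p3) = 1 := by
    have e : legendreSym p1 (p2 : ℤ) = legendreSym p1 (p3 : ℤ) := by
      apply leg_congr
      refine ⟨2, ?_⟩
      have : (p2 : ℤ) = 2 * p1 + p3 := by exact_mod_cast h2
      rw [this]; ring
    rw [legendreSym.mul, e]
    exact leg_sq a13
  have hd2 : d2 = 1 := by
    obtain ⟨ε, hε, hd⟩ := sh2
    -- reduce to the list
    have hlist : d2 = 1 ∨ d2 = -1 ∨ d2 = 2 ∨ d2 = -1 * 2 ∨ d2 = (p2 : ℤ) * p3 ∨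
        d2 = -1 * ((p2 : ℤ) * p3) ∨ d2 = 2 * ((p2 : ℤ) * p3) ∨
        d2 = -1 * (2 * ((p2 : ℤ) * p3)) := by
      apply list2 c2 c3 c23 hε hd
      rcases tw with tw | tw | tw | tw
      · exact Or.inl tw.1
      · exact Or.inr (Or.inl tw)
      · exact Or.inr (Or.inr (Or.inl tw))
      · exact Or.inr (Or.inr (Or.inr tw))
    rcases hlist with h | h | h | h | h | h | h | h
    · exact h
    · exfalso
      rw [h, l1m] at st0
      exact absurd st0.2 (by norm_num)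
    · exfalso
      rw [h, l1t] at st0
      exact absurd st0.2 (by norm_num)
    · exfalso
      have h3 := hST2 _ _ _ _ _ _ _ _ _ hP p3 t3 ⟨4 * (p1 : ℤ) ^ 2 * p2, by ring⟩ (by
        intro hc
        obtain ⟨c, hc⟩ := hc
        have h1 : (p3 : ℤ) ∣ (2 * 2) * ((p1 * p1) * p2) := by
          refine ⟨c, ?_⟩
          have h0 : (p3 : ℤ) ≠ 0 := prI3.ne_zero
          apply mul_left_cancel₀ h0
          linear_combination hc
        exact ndm prI3 (ndm prI3 a3t a3t) (ndm prI3 (ndm prI3 a31 a31) a32) h1)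
        ⟨-2 * (p1 : ℤ) * p2, by ring⟩ (by
          rw [h]
          have hm : ¬ (p3 : ℤ) ∣ -1 := by
            intro hh
            exact prI3.not_isUnit (isUnit_of_dvd_unit hh (by norm_num))
          exact ndm prI3 hm a3t)
      rw [h, legendreSym.mul, l3m, l3t] at h3
      exact absurd h3 (by norm_num)
    · exfalso
      by_cases hp2 : (p2 : ℤ) ∣ d1
      · obtain ⟨g1, hg1⟩ := hp2
        have h6 := hST6 _ _ _ _ _ _ _ _ _ hP p2 (4 * (p1 : ℤ) ^ 2 * p3) (2 * (p1 : ℤ) * p3) g1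
          (p3 : ℤ) t2 (by ring) (by
            have e : 4 * (p1 : ℤ) ^ 2 * p3 = (2 * 2) * ((p1 * p1) * p3) := by ring
            rw [e]
            exact ndm prI2 (ndm prI2 a2t a2t) (ndm prI2 (ndm prI2 a21 a21) a23))
          hdiff (by exact ndm prI2 (ndm prI2 a2t a21) a23) hg1 h
        have e1 : 4 * (p1 : ℤ) ^ 2 * p3 * (2 * p1 * p3) =
            ((2 * p1 * p3) * (2 * p1 * p3)) * (2 * p1) := by ring
        have hn : ¬ (p2 : ℤ) ∣ 2 * p1 * p3 := ndm prI2 (ndm prI2 a2t a21) a23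
        rw [e1, legendreSym.mul, legendreSym.mul p2 (2 * p1 * p3), leg_sq hn, one_mul] at h6
        have e2 : legendreSym p2 (p3 : ℤ) = legendreSym p2 (-1 * (2 * p1)) := by
          apply leg_congr
          refine ⟨1, ?_⟩
          have : (p2 : ℤ) = 2 * p1 + p3 := by exact_mod_cast h2
          rw [this]; ring
        rw [e2, legendreSym.mul, l2m] at h6
        have hz : legendreSym p2 (2 * (p1 : ℤ)) ≠ 0 := leg_ne (ndm prI2 a2t a21)
        apply hz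
        linarith
      · have h5 := hST5 _ _ _ _ _ _ _ _ _ hP p2 (4 * (p1 : ℤ) ^ 2 * p3) (p3 : ℤ) t2 (by ring) (by
            have e : 4 * (p1 : ℤ) ^ 2 * p3 = (2 * 2) * ((p1 * p1) * p3) := by ring
            rw [e]
            exact ndm prI2 (ndm prI2 a2t a2t) (ndm prI2 (ndm prI2 a21 a21) a23))
          (by rw [hdiff]; exact dvd_mul_right _ _) hp2 h
        have e1 : -(4 * (p1 : ℤ) ^ 2 * p3) = -1 * (((2 * p1) * (2 * p1)) * p3) := by ring
        rw [e1, legendreSym.mul, legendreSym.mul p2 (2 * p1 * (2 * p1)),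
          legendreSym.mul p2 (2 * p1), leg_sq (ndm prI2 a2t a21), one_mul, l2m] at h5
        have hz : legendreSym p2 (p3 : ℤ) ≠ 0 := leg_ne a23
        apply hz
        linarith
    · exfalso
      rw [h, legendreSym.mul, l1m, l1p] at st0
      exact absurd st0.2 (by norm_num)
    · exfalso
      rw [h, legendreSym.mul, l1t, l1p] at st0
      exact absurd st0.2 (by norm_num)
    · exfalso
      have h3 := hST3 _ _ _ _ _ _ _ _ _ hP p3 (4 * (p1 : ℤ) ^ 2 * p2) (-1 * (2 * (p2 : ℤ))) t3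
        (by ring) (by
          have e : 4 * (p1 : ℤ) ^ 2 * p2 = (2 * 2) * ((p1 * p1) * p2) := by ring
          rw [e]
          exact ndm prI3 (ndm prI3 a3t a3t) (ndm prI3 (ndm prI3 a31 a31) a32))
        ⟨-2 * (p1 : ℤ) * p2, by ring⟩ (by rw [h]; ring)
      have e1 : -(4 * (p1 : ℤ) ^ 2 * p2) = -1 * (((2 * p1) * (2 * p1)) * p2) := by ring
      rw [e1, legendreSym.mul, legendreSym.mul p3 2, legendreSym.mul p3 (-1),
        legendreSym.mul p3 (2 * p1 * (2 * p1)),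
        legendreSym.mul p3 (2 * p1), leg_sq (ndm prI3 a3t a31), l3m, l3t] at h3
      have hz : legendreSym p3 (p2 : ℤ) ≠ 0 := leg_ne a32
      apply hz
      linarith
  refine ⟨?_, hd2⟩
  have he2 : 0 < 4 * (p1 : ℤ) ^ 2 * p2 * p3 := by
    have b1 : (0 : ℤ) < p1 := by exact_mod_cast q1.pos
    have b2 : (0 : ℤ) < p2 := by exact_mod_cast q2.pos
    have b3 : (0 : ℤ) < p3 := by exact_mod_cast q3.pos
    positivity
  have hpos : 0 < d1 := (hREA _ _ _ _ _ _ _ _ _ hP).1 he2 (by rw [hd2]; norm_num)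
  obtain ⟨ε, hε, hd⟩ := sh1
  have b2 : (0 : ℤ) < p2 := by exact_mod_cast q2.pos
  have b3 : (0 : ℤ) < p3 := by exact_mod_cast q3.pos
  have b23 : (0 : ℤ) < (p2 : ℤ) * p3 := mul_pos b2 b3
  have hlist : d1 = 1 ∨ d1 = 2 := by
    apply list1 c2 c3 c23 b2 b3 b23 hpos hε hd
    rw [hd2] at tw
    rcases tw with tw | tw | tw | tw
    · exact tw.2
    · norm_num at tw
    · norm_num at tw
    · norm_num at tw
  rcases hlist with h | h
  · exact h
  · exfalso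
    rw [h, l1t] at st0
    exact absurd st0.1 (by norm_num)

end Pool.Agent.NJ.H75
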